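import Mathlib

set_option autoImplicit false

/-!
# Real interactive protocols relative to an oracle

Real machines with finitely many stacks of real numbers, arbitrary real constants, unit cost
arithmetic, the test `≥ 0`, and questions to an oracle (a set of finite lists of reals).
-/

namespace Pool.Agent.OIP

/-- The instructions of a real machine. The number `s` (or `t`) names a stack, `j` is a line of the
program and `c` is a real constant. The top of an empty stack counts as `0`. -/
inductive Instr : Type
  /-- put the constant `c` on stack `s` -/
  | push (s : ℕ) (c : ℝ)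
  /-- remove the top of stack `s` -/
  | pop (s : ℕ)
  /-- put the top of stack `s` on stack `t` (stack `s` keeps it) -/
  | copy (s t : ℕ)
  /-- replace the two topmost numbers of stack `s` by their sum -/
  | add (s : ℕ)
  /-- replace the two topmost numbers of stack `s` by their difference -/
  | sub (s : ℕ)
  /-- replace the two topmost numbers of stack `s` by their product -/
  | mul (s : ℕ)
  /-- go to line `j` if the top of stack `s` is `≥ 0` -/
  | ifNonneg (s j : ℕ)
  /-- go to line `j` if stack `s` is empty -/
  | ifEmpty (s j : ℕ)
  /-- go to line `j` if the list on stack `s` belongs to the oracle -/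
  | ifMem (s j : ℕ)

/-- A configuration: the current line and the contents of the stacks (top first). -/
structure Cfg : Type where
  /-- current line -/
  pc : ℕ
  /-- contents of the stacks -/
  st : ℕ → List ℝ

/-- The top of a stack, `0` if it is empty. -/
def top (l : List ℝ) : ℝ := l.headD 0

open Classical in
/-- The effect of one instruction, relative to the oracle `O`. -/
noncomputable def exec (O : Set (List ℝ)) (c : Cfg) : Instr → Cfg
  | .push s a => ⟨c.pc + 1, Function.update c.st s (a :: c.st s)⟩
  | .pop s => ⟨c.pc + 1, Function.update c.st s (c.st s).tail⟩
  | .copy s t => ⟨c.pc + 1, Function.update c.st t (top (c.st s) :: c.st t)⟩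
  | .add s => ⟨c.pc + 1, Function.update c.st s
      ((top (c.st s) + top (c.st s).tail) :: (c.st s).tail.tail)⟩
  | .sub s => ⟨c.pc + 1, Function.update c.st s
      ((top (c.st s) - top (c.st s).tail) :: (c.st s).tail.tail)⟩
  | .mul s => ⟨c.pc + 1, Function.update c.st s
      ((top (c.st s) * top (c.st s).tail) :: (c.st s).tail.tail)⟩
  | .ifNonneg s j => ⟨if 0 ≤ top (c.st s) then j else c.pc + 1, c.st⟩
  | .ifEmpty s j => ⟨if c.st s = [] then j else c.pc + 1, c.st⟩
  | .ifMem s j => ⟨if c.st s ∈ O then j else c.pc + 1, c.st⟩

/-- One step of the program `p`: nothing happens if the current line is beyond the program. -/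
noncomputable def step (O : Set (List ℝ)) (p : List Instr) (c : Cfg) : Cfg :=
  match p[c.pc]? with
  | none => c
  | some i => exec O c i

/-- The configuration after `t` steps. -/
noncomputable def run (O : Set (List ℝ)) (p : List Instr) (t : ℕ) (c : Cfg) : Cfg :=
  (step O p)^[t] c

/-- The initial configuration: the input `x` on stack `0`, the random bits `r` on stack `1`, the
messages `ms` of the prover so far (the latest one on top) on stack `2`. -/
def start (x r ms : List ℝ) : Cfg :=
  ⟨0, fun s => if s = 0 then x else if s = 1 then r else if s = 2 then ms else []⟩

/-- A verifier. All data may depend on the size `n` of the input. -/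
structure Verifier : Type where
  /-- the program used on inputs of size `n` -/
  prog : ℕ → List Instr
  /-- the number of messages of the prover: there are `msgs n + 1` rounds -/
  msgs : ℕ → ℕ
  /-- the number of steps per round -/
  time : ℕ → ℕ
  /-- the number of random bits -/
  bits : ℕ → ℕ

/-- The configuration of the verifier at the end of the round in which it knows the input `x`,
the random bits `r` and the messages `ms` of the prover. -/
noncomputable def fin (O : Set (List ℝ)) (V : Verifier) (x r ms : List ℝ) : Cfg :=
  run O (V.prog x.length) (V.time x.length) (start x r ms)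

/-- The number computed by the verifier in this round: the top of stack `3`. -/
noncomputable def out (O : Set (List ℝ)) (V : Verifier) (x r ms : List ℝ) : ℝ :=
  top ((fin O V x r ms).st 3)

/-- The messages of the verifier and of the prover `P` after `i` rounds, the latest ones first. The
prover answers with a function of the messages of the verifier so far. -/
noncomputable def hist (O : Set (List ℝ)) (V : Verifier) (x r : List ℝ) (P : List ℝ → ℝ) :
    ℕ → List ℝ × List ℝ
  | 0 => ([], [])
  | i + 1 =>
    (out O V x r (hist O V x r P i).2 :: (hist O V x r P i).1,
      P (out O V x r (hist O V x r P i).2 :: (hist O V x r P i).1) :: (hist O V x r P i).2)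

/-- The verifier accepts: the number computed in the last round is `1`. -/
def Accepts (O : Set (List ℝ)) (V : Verifier) (x r : List ℝ) (P : List ℝ → ℝ) : Prop :=
  out O V x r (hist O V x r P (V.msgs x.length)).2 = 1

/-- A string of bits as a list of reals `0`, `1`. -/
def bitList {k : ℕ} (r : Fin k → Bool) : List ℝ := List.ofFn fun i => if r i then 1 else 0

open Classical in
/-- The probability that the prover `P` makes `V` accept the input `x`, for uniformly distributed
random bits. -/
noncomputable def prob (O : Set (List ℝ)) (V : Verifier) (x : List ℝ) (P : List ℝ → ℝ) : ℝ :=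
  ((Finset.univ.filter fun r : Fin (V.bits x.length) → Bool =>
    Accepts O V x (bitList r) P).card : ℝ) / 2 ^ V.bits x.length

/-- `V` decides `L` relative to the oracle `O`, with completeness `c n` and soundness error `s n`
on inputs of size `n`. -/
def Verifier.Decides (V : Verifier) (O : Set (List ℝ)) (c s : ℕ → ℝ) (L : Set (List ℝ)) : Prop :=
  ∀ x : List ℝ, x ≠ [] →
    (x ∈ L → ∃ P : List ℝ → ℝ, c x.length ≤ prob O V x P) ∧
    (x ∉ L → ∀ P : List ℝ → ℝ, prob O V x P ≤ s x.length)

/-- The verifier uses the same program for all inputs, and its resources are polynomials. -/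
def Verifier.Poly (V : Verifier) : Prop :=
  ∃ (p : List Instr) (a b d : ℕ), ∀ n : ℕ,
    V.prog n = p ∧ V.msgs n = (n + 2) ^ a ∧ V.time n = (n + 2) ^ b ∧ V.bits n = (n + 2) ^ d

/-- The verifier always halts in time. -/
def Verifier.Halts (V : Verifier) (O : Set (List ℝ)) : Prop :=
  ∀ x : List ℝ, x ≠ [] → ∀ (r : Fin (V.bits x.length) → Bool) (ms : List ℝ),
    ms.length ≤ V.msgs x.length → (V.prog x.length).length ≤ (fin O V x (bitList r) ms).pc

/-- `L` has a polynomial time real interactive protocol relative to the oracle `O`, with
completeness `c` and soundness error `s`. -/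
def HasProtocol (O : Set (List ℝ)) (c s : ℝ) (L : Set (List ℝ)) : Prop :=
  ∃ V : Verifier, V.Poly ∧ V.Halts O ∧ V.Decides O (fun _ => c) (fun _ => s) L

end Pool.Agent.OIP
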