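import Mathlib
import Pool.Agent.OIP.Model

set_option autoImplicit false

/-!
# A computation depends only on the answers to its oracle questions
-/

namespace Pool.Agent.OIP

/-- The question asked in the configuration `c` (none or one). -/
def query (p : List Instr) (c : Cfg) : List (List ℝ) :=
  match p[c.pc]? with
  | some (.ifMem s _) => [c.st s]
  | _ => []

/-- The questions asked during `t` steps. -/
noncomputable def queries (O : Set (List ℝ)) (p : List Instr) : ℕ → Cfg → List (List ℝ)
  | 0, _ => []
  | t + 1, c => query p c ++ queries O p t (step O p c)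

lemma query_length_le (p : List Instr) (c : Cfg) : (query p c).length ≤ 1 := by
  unfold query
  split <;> simp

lemma queries_length_le (O : Set (List ℝ)) (p : List Instr) :
    ∀ (t : ℕ) (c : Cfg), (queries O p t c).length ≤ t
  | 0, _ => by simp [queries]
  | t + 1, c => by
    have h1 := query_length_le p c
    have h2 := queries_length_le O p t (step O p c)
    simp only [queries, List.length_append]
    omega

lemma step_congr {O O' : Set (List ℝ)} {p : List Instr} {c : Cfg}
    (h : ∀ q ∈ query p c, (q ∈ O ↔ q ∈ O')) : step O p c = step O' p c := by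
  unfold step
  unfold query at h
  split
  · rfl
  · rename_i i hi
    rw [hi] at h
    cases i with
    | ifMem s j =>
      have h0 := h (c.st s) (by simp)
      simp only [exec]
      by_cases hc : c.st s ∈ O
      · rw [if_pos hc, if_pos (h0.mp hc)]
      · rw [if_neg hc, if_neg fun h' => hc (h0.mpr h')]
    | _ => rfl

lemma run_succ (O : Set (List ℝ)) (p : List Instr) (t : ℕ) (c : Cfg) :
    run O p (t + 1) c = run O p t (step O p c) := rfl

lemma run_zero (O : Set (List ℝ)) (p : List Instr) (c : Cfg) : run O p 0 c = c := rfl

lemma run_congr {O O' : Set (List ℝ)} {p : List Instr} :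
    ∀ (t : ℕ) (c : Cfg), (∀ q ∈ queries O p t c, (q ∈ O ↔ q ∈ O')) →
      run O p t c = run O' p t c
  | 0, _, _ => rfl
  | t + 1, c, h => by
    have h1 : step O p c = step O' p c :=
      step_congr fun q hq => h q (by simp [queries, hq])
    rw [run_succ, run_succ, ← h1]
    exact run_congr t _ fun q hq => h q (by simp [queries, hq])

/-- The questions asked in one round. -/
noncomputable def roundQ (O : Set (List ℝ)) (V : Verifier) (x r ms : List ℝ) : List (List ℝ) :=
  queries O (V.prog x.length) (V.time x.length) (start x r ms)

lemma out_congr {O O' : Set (List ℝ)} {V : Verifier} {x r ms : List ℝ}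
    (h : ∀ q ∈ roundQ O V x r ms, (q ∈ O ↔ q ∈ O')) : out O V x r ms = out O' V x r ms := by
  unfold out fin
  rw [run_congr _ _ h]

/-- The questions asked in the first `m` rounds. -/
noncomputable def allQ (O : Set (List ℝ)) (V : Verifier) (x r : List ℝ) (P : List ℝ → ℝ)
    (m : ℕ) : List (List ℝ) :=
  (List.range m).flatMap fun i => roundQ O V x r (hist O V x r P i).2

lemma allQ_succ (O : Set (List ℝ)) (V : Verifier) (x r : List ℝ) (P : List ℝ → ℝ) (m : ℕ) :
    allQ O V x r P (m + 1) = allQ O V x r P m ++ roundQ O V x r (hist O V x r P m).2 := by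
  simp [allQ, List.range_succ]

lemma allQ_length_le (O : Set (List ℝ)) (V : Verifier) (x r : List ℝ) (P : List ℝ → ℝ) :
    ∀ m : ℕ, (allQ O V x r P m).length ≤ m * V.time x.length
  | 0 => by simp [allQ]
  | m + 1 => by
    rw [allQ_succ, List.length_append]
    have h1 := allQ_length_le O V x r P m
    have h2 : (roundQ O V x r (hist O V x r P m).2).length ≤ V.time x.length :=
      queries_length_le _ _ _ _
    rw [Nat.succ_mul]
    omega

lemma hist_congr {O O' : Set (List ℝ)} {V : Verifier} {x r : List ℝ} {P : List ℝ → ℝ} :
    ∀ i : ℕ, (∀ q ∈ allQ O V x r P i, (q ∈ O ↔ q ∈ O')) → hist O V x r P i = hist O' V x r P i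
  | 0, _ => rfl
  | i + 1, h => by
    rw [allQ_succ] at h
    have h1 : hist O V x r P i = hist O' V x r P i :=
      hist_congr i fun q hq => h q (by simp [hq])
    have h2 : out O V x r (hist O V x r P i).2 = out O' V x r (hist O V x r P i).2 :=
      out_congr fun q hq => h q (by simp [hq])
    simp only [hist]
    rw [← h1, ← h2]

lemma accepts_congr {O O' : Set (List ℝ)} {V : Verifier} {x r : List ℝ} {P : List ℝ → ℝ}
    (h : ∀ q ∈ allQ O V x r P (V.msgs x.length + 1), (q ∈ O ↔ q ∈ O')) :
    Accepts O V x r P ↔ Accepts O' V x r P := by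
  unfold Accepts
  rw [allQ_succ] at h
  have h1 : hist O V x r P (V.msgs x.length) = hist O' V x r P (V.msgs x.length) :=
    hist_congr _ fun q hq => h q (by simp [hq])
  have h2 : out O V x r (hist O V x r P (V.msgs x.length)).2 =
      out O' V x r (hist O V x r P (V.msgs x.length)).2 :=
    out_congr fun q hq => h q (by simp [hq])
  rw [← h1, ← h2]

end Pool.Agent.OIP
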