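import Mathlib
import Pool.Agent.OIP.Local

set_option autoImplicit false

/-!
# A verifier that asks one question
-/

namespace Pool.Agent.OIP

/-- Move the messages of the prover on top of the input, put `κ` on top, and ask the oracle. -/
def askProg (κ : ℝ) : List Instr :=
  [.ifEmpty 2 4, .copy 2 0, .pop 2, .ifEmpty 4 0, .push 0 κ, .ifMem 0 8, .push 3 0, .ifEmpty 4 9,
    .push 3 1]

lemma run_add (O : Set (List ℝ)) (p : List Instr) (s t : ℕ) (c : Cfg) :
    run O p (s + t) c = run O p t (run O p s c) := by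
  unfold run
  rw [Nat.add_comm, Function.iterate_add_apply]

lemma step_halted {O : Set (List ℝ)} {p : List Instr} {c : Cfg} (h : p.length ≤ c.pc) :
    step O p c = c := by
  unfold step
  rw [List.getElem?_eq_none h]

lemma run_halted {O : Set (List ℝ)} {p : List Instr} {c : Cfg} (h : p.length ≤ c.pc) :
    ∀ t : ℕ, run O p t c = c
  | 0 => rfl
  | t + 1 => by rw [run_succ, step_halted h, run_halted h t]

variable {O : Set (List ℝ)} {κ : ℝ}

lemma loop_run : ∀ (ms : List ℝ) (st : ℕ → List ℝ), st 4 = [] → st 2 = ms →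
    run O (askProg κ) (4 * ms.length + 1) ⟨0, st⟩ =
      ⟨4, Function.update (Function.update st 2 []) 0 (ms.reverse ++ st 0)⟩
  | [], st, h4, h2 => by
    have e1 : step O (askProg κ) ⟨0, st⟩ = ⟨4, st⟩ := by simp [step, exec, askProg, h2]
    have e2 : Function.update (Function.update st 2 []) 0 (([] : List ℝ).reverse ++ st 0) = st := by
      funext i
      by_cases h0 : i = 0
      · subst h0; simp
      · by_cases h2' : i = 2
        · subst h2'; simp [h2]
        · simp [h0, h2']
    rw [e2]
    show run O (askProg κ) 1 ⟨0, st⟩ = _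
    rw [run_succ, run_zero, e1]
  | m :: ms, st, h4, h2 => by
    have e1 : step O (askProg κ) ⟨0, st⟩ = ⟨1, st⟩ := by simp [step, exec, askProg, h2]
    have e2 : step O (askProg κ) ⟨1, st⟩ = ⟨2, Function.update st 0 (m :: st 0)⟩ := by
      simp [step, exec, askProg, h2, top]
    have e3 : step O (askProg κ) ⟨2, Function.update st 0 (m :: st 0)⟩ =
        ⟨3, Function.update (Function.update st 0 (m :: st 0)) 2 ms⟩ := by
      simp [step, exec, askProg, h2]
    have e4 : step O (askProg κ) ⟨3, Function.update (Function.update st 0 (m :: st 0)) 2 ms⟩ =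
        ⟨0, Function.update (Function.update st 0 (m :: st 0)) 2 ms⟩ := by
      simp [step, exec, askProg, h4]
    have e5 : 4 * (m :: ms).length + 1 = (4 * ms.length + 1) + 1 + 1 + 1 + 1 := by
      simp only [List.length_cons]; ring
    rw [e5, run_succ, e1, run_succ, e2, run_succ, e3, run_succ, e4,
      loop_run ms _ (by simp [h4]) (by simp)]
    congr 1
    funext i
    by_cases h0 : i = 0
    · subst h0; simp
    · by_cases h2' : i = 2
      · subst h2'; simp
      · simp [h0, h2']

lemma askProg_run (x r ms : List ℝ) {t : ℕ} (ht : 4 * ms.length + 5 ≤ t) :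
    (askProg κ).length ≤ (run O (askProg κ) t (start x r ms)).pc ∧
      (top ((run O (askProg κ) t (start x r ms)).st 3) = 1 ↔ κ :: (ms.reverse ++ x) ∈ O) := by
  set st0 : ℕ → List ℝ := (start x r ms).st with hst0
  have hs : start x r ms = ⟨0, st0⟩ := rfl
  have h0 : st0 0 = x := by simp [hst0, start]
  have h2 : st0 2 = ms := by simp [hst0, start]
  have h3 : st0 3 = [] := by simp [hst0, start]
  have h4 : st0 4 = [] := by simp [hst0, start]
  set st1 : ℕ → List ℝ := Function.update (Function.update st0 2 []) 0 (ms.reverse ++ st0 0)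
    with hst1
  set st2 : ℕ → List ℝ := Function.update st1 0 (κ :: (ms.reverse ++ x)) with hst2
  have k1 : run O (askProg κ) (4 * ms.length + 1) (start x r ms) = ⟨4, st1⟩ := by
    rw [hs, loop_run ms st0 h4 h2]
  have k2 : step O (askProg κ) ⟨4, st1⟩ = ⟨5, st2⟩ := by
    simp [step, exec, askProg, hst2, hst1, h0]
  have m4 : st2 4 = [] := by simp [hst2, hst1, h4]
  have m0 : st2 0 = κ :: (ms.reverse ++ x) := by simp [hst2]
  obtain ⟨u, rfl⟩ : ∃ u, t = (4 * ms.length + 1) + (u + 1 + 1 + 1 + 1) :=
    ⟨t - (4 * ms.length + 5), by omega⟩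
  rw [run_add, k1, run_succ, k2, run_succ]
  by_cases hm : κ :: (ms.reverse ++ x) ∈ O
  · have k3 : step O (askProg κ) ⟨5, st2⟩ = ⟨8, st2⟩ := by
      simp [step, exec, askProg, m0, hm]
    have k4 : step O (askProg κ) ⟨8, st2⟩ = ⟨9, Function.update st2 3 (1 :: st2 3)⟩ := by
      simp [step, exec, askProg]
    have k5 : (askProg κ).length ≤ (⟨9, Function.update st2 3 (1 :: st2 3)⟩ : Cfg).pc := by
      simp [askProg]
    rw [k3, run_succ, k4, run_halted k5]
    exact ⟨k5, by simp [top, hm]⟩
  · have k3 : step O (askProg κ) ⟨5, st2⟩ = ⟨6, st2⟩ := by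
      simp [step, exec, askProg, m0, hm]
    have k4 : step O (askProg κ) ⟨6, st2⟩ = ⟨7, Function.update st2 3 (0 :: st2 3)⟩ := by
      simp [step, exec, askProg]
    have k4' : step O (askProg κ) ⟨7, Function.update st2 3 (0 :: st2 3)⟩ =
        ⟨9, Function.update st2 3 (0 :: st2 3)⟩ := by
      simp [step, exec, askProg, m4]
    have k5 : (askProg κ).length ≤ (⟨9, Function.update st2 3 (0 :: st2 3)⟩ : Cfg).pc := by
      simp [askProg]
    rw [k3, run_succ, k4, run_succ, k4', run_halted k5]
    exact ⟨k5, by simp [top, hm]⟩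

end Pool.Agent.OIP
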