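import Mathlib
import Pool.Agent.OIP.Prog

set_option autoImplicit false

/-!
# The verifier that asks one question, continued
-/

namespace Pool.Agent.OIP

/-- The verifier for `askProg`, with `(n + 2) ^ a` messages of the prover. -/
noncomputable def askV (κ : ℝ) (a : ℕ) : Verifier :=
  ⟨fun _ => askProg κ, fun n => (n + 2) ^ a, fun n => (n + 2) ^ (a + 2), fun n => (n + 2) ^ 0⟩

lemma askV_poly (κ : ℝ) (a : ℕ) : (askV κ a).Poly :=
  ⟨askProg κ, a, a + 2, 0, fun _ => ⟨rfl, rfl, rfl, rfl⟩⟩

lemma hist_length (O : Set (List ℝ)) (V : Verifier) (x r : List ℝ) (P : List ℝ → ℝ) :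
    ∀ i : ℕ, (hist O V x r P i).1.length = i ∧ (hist O V x r P i).2.length = i
  | 0 => by simp [hist]
  | i + 1 => by
    have := hist_length O V x r P i
    simp [hist, this.1, this.2]

/-- The prover that recites the list `y`. -/
noncomputable def recite (y : List ℝ) : List ℝ → ℝ := fun ws => y.getD (ws.length - 1) 0

lemma hist_recite (O : Set (List ℝ)) (V : Verifier) (x r y : List ℝ) :
    ∀ i : ℕ, i ≤ y.length → (hist O V x r (recite y) i).2 = (y.take i).reverse
  | 0, _ => by simp [hist]
  | i + 1, hi => by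
    have h1 := hist_recite O V x r y i (by omega)
    have h2 := (hist_length O V x r (recite y) i).1
    have h3 : i < y.length := by omega
    simp only [hist, h1]
    rw [List.take_succ_eq_append_getElem h3, List.reverse_append]
    simp [recite, h2, h3]

lemma askV_time {x : List ℝ} (hx : x ≠ []) (a : ℕ) {m : ℕ} (hm : m ≤ (x.length + 2) ^ a) :
    4 * m + 5 ≤ (x.length + 2) ^ (a + 2) := by
  have hx' : 1 ≤ x.length := List.length_pos_iff.mpr hx
  have h1 : 1 ≤ (x.length + 2) ^ a := Nat.one_le_pow _ _ (by omega)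
  have h2 : 9 ≤ (x.length + 2) ^ 2 := by nlinarith
  rw [pow_add]
  nlinarith

lemma askV_halts (O : Set (List ℝ)) (κ : ℝ) (a : ℕ) : (askV κ a).Halts O := by
  intro x hx r ms hms
  exact (askProg_run x (bitList r) ms (askV_time hx a hms)).1

lemma askV_accepts (O : Set (List ℝ)) (κ : ℝ) (a : ℕ) {x : List ℝ} (hx : x ≠ []) (r : List ℝ)
    (P : List ℝ → ℝ) : Accepts O (askV κ a) x r P ↔
      κ :: ((hist O (askV κ a) x r P ((x.length + 2) ^ a)).2.reverse ++ x) ∈ O := by
  unfold Accepts out fin
  exact (askProg_run x r _ (askV_time hx a (hist_length O (askV κ a) x r P _).2.le)).2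

lemma prob_one {O : Set (List ℝ)} {V : Verifier} {x : List ℝ} {P : List ℝ → ℝ}
    (h : ∀ r : Fin (V.bits x.length) → Bool, Accepts O V x (bitList r) P) :
    prob O V x P = 1 := by
  classical
  unfold prob
  simp [h]

lemma prob_zero {O : Set (List ℝ)} {V : Verifier} {x : List ℝ} {P : List ℝ → ℝ}
    (h : ∀ r : Fin (V.bits x.length) → Bool, ¬ Accepts O V x (bitList r) P) :
    prob O V x P = 0 := by
  classical
  unfold prob
  simp [h]

/-- If membership of `x` in `L` is witnessed by `(n + 2) ^ a` reals that form, together with `κ`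
and `x`, an element of the oracle, then `L` has a protocol without errors. -/
lemma ask_protocol {O : Set (List ℝ)} {κ : ℝ} {a : ℕ} {L : Set (List ℝ)}
    (h : ∀ x : List ℝ, x ≠ [] →
      (x ∈ L ↔ ∃ y : List ℝ, y.length = (x.length + 2) ^ a ∧ κ :: (y ++ x) ∈ O)) :
    HasProtocol O 1 0 L := by
  refine ⟨askV κ a, askV_poly κ a, askV_halts O κ a, fun x hx => ⟨?_, ?_⟩⟩
  · intro hxL
    obtain ⟨y, hy, hyO⟩ := (h x hx).mp hxL
    refine ⟨recite y, le_of_eq (prob_one fun r => ?_).symm⟩
    rw [askV_accepts O κ a hx, ← hy, hist_recite _ _ _ _ _ _ le_rfl]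
    simpa using hyO
  · intro hx' P
    refine le_of_eq (prob_zero fun r => ?_)
    rw [askV_accepts O κ a hx]
    intro h'
    apply hx'
    rw [h x hx]
    exact ⟨_, by rw [List.length_reverse, (hist_length _ _ _ _ _ _).2], h'⟩

end Pool.Agent.OIP
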