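import Mathlib
import Pool.Agent.OIP.Model

set_option autoImplicit false

/-!
# There are at most continuum many verifiers
-/

namespace Pool.Agent.OIP

open Cardinal

/-- A code of an instruction. -/
noncomputable def Instr.code : Instr → ℕ × ℕ × ℕ × ℝ
  | .push s c => (0, s, 0, c)
  | .pop s => (1, s, 0, 0)
  | .copy s t => (2, s, t, 0)
  | .add s => (3, s, 0, 0)
  | .sub s => (4, s, 0, 0)
  | .mul s => (5, s, 0, 0)
  | .ifNonneg s j => (6, s, j, 0)
  | .ifEmpty s j => (7, s, j, 0)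
  | .ifMem s j => (8, s, j, 0)

lemma Instr.code_injective : Function.Injective Instr.code := by
  intro i j h
  cases i <;> cases j <;> simp_all [Instr.code]

lemma mk_instr_le : #(List Instr) ≤ 𝔠 := by
  have h1 := Cardinal.mk_le_of_injective Instr.code_injective.list_map
  have h2 : #(ℕ × ℕ × ℕ × ℝ) = 𝔠 := by
    simp [Cardinal.mk_prod, Cardinal.mk_real]
  have h3 : #(List (ℕ × ℕ × ℕ × ℝ)) = 𝔠 := by
    rw [Cardinal.mk_list_eq_max_mk_aleph0, h2]
    exact max_eq_left Cardinal.aleph0_le_continuum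
  rwa [h3] at h1

lemma mk_seq_le {α : Type} (h : #α ≤ 𝔠) : #(ℕ → α) ≤ 𝔠 := by
  have h1 : #(ℕ → α) = #α ^ ℵ₀ := by simp
  rw [h1]
  calc #α ^ ℵ₀ ≤ 𝔠 ^ ℵ₀ := Cardinal.power_le_power_right h
    _ = 𝔠 := Cardinal.continuum_power_aleph0

lemma mk_prod_le {α β : Type} (h : #α ≤ 𝔠) (h' : #β ≤ 𝔠) : #(α × β) ≤ 𝔠 := by
  rw [Cardinal.mk_prod, Cardinal.lift_id, Cardinal.lift_id]
  calc #α * #β ≤ 𝔠 * 𝔠 := mul_le_mul' h h'
    _ = 𝔠 := Cardinal.continuum_mul_self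

/-- The data of a verifier. -/
def Verifier.data (V : Verifier) : (ℕ → List Instr) × (ℕ → ℕ) × (ℕ → ℕ) × (ℕ → ℕ) :=
  (V.prog, V.msgs, V.time, V.bits)

lemma Verifier.data_injective : Function.Injective Verifier.data := by
  rintro ⟨p, a, b, d⟩ ⟨p', a', b', d'⟩ h
  simp only [Verifier.data, Prod.mk.injEq] at h
  obtain ⟨rfl, rfl, rfl, rfl⟩ := h
  rfl

lemma mk_verifier_le : #Verifier ≤ 𝔠 := by
  refine (Cardinal.mk_le_of_injective Verifier.data_injective).trans ?_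
  have h : #(ℕ → ℕ) ≤ 𝔠 := mk_seq_le (by
    rw [Cardinal.mk_nat]; exact Cardinal.aleph0_le_continuum)
  exact mk_prod_le (mk_seq_le mk_instr_le) (mk_prod_le h (mk_prod_le h h))

lemma mk_real_seq_le : #(ℕ → ℝ) ≤ 𝔠 := mk_seq_le Cardinal.mk_real.le

end Pool.Agent.OIP
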