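import Mathlib
import Pool.Agent.OIP.Ask

set_option autoImplicit false

/-!
# A deterministic program that pads its input until the oracle is content, and asks one question
-/

namespace Pool.Agent.OIP

/-- `L` is decided relative to the oracle `O` by a deterministic polynomial time machine: on every
nonempty input `x` of size `n` the program halts within `(n + 2) ^ b` steps, with output `1` if
`x ∈ L` and output `0` if `x ∉ L`. -/
def InP (O : Set (List ℝ)) (L : Set (List ℝ)) : Prop :=
  ∃ (p : List Instr) (b : ℕ), ∀ x : List ℝ, x ≠ [] →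
    p.length ≤ (run O p ((x.length + 2) ^ b) (start x [] [])).pc ∧
    (x ∈ L → top ((run O p ((x.length + 2) ^ b) (start x [] [])).st 3) = 1) ∧
    (x ∉ L → top ((run O p ((x.length + 2) ^ b) (start x [] [])).st 3) = 0)

/-- The padding program. -/
def padProg (κ κ' : ℝ) : List Instr :=
  [.push 0 1, .push 0 κ, .ifMem 0 6, .pop 0, .push 0 0, .ifEmpty 4 1, .pop 0, .push 0 κ',
    .ifMem 0 11, .push 3 0, .ifEmpty 4 12, .push 3 1]

/-- The word `0 ... 0 1 x` with `m` zeros. -/
def pw (m : ℕ) (x : List ℝ) : List ℝ := List.replicate m 0 ++ 1 :: x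

lemma pw_succ (m : ℕ) (x : List ℝ) : 0 :: pw m x = pw (m + 1) x := by
  simp [pw, List.replicate_succ]

lemma pw_length (m : ℕ) (x : List ℝ) : (pw m x).length = m + x.length + 1 := by
  simp only [pw, List.length_append, List.length_replicate, List.length_cons]
  ring

lemma pw_inj : ∀ {m m' : ℕ} {x x' : List ℝ}, pw m x = pw m' x' → m = m' ∧ x = x'
  | 0, 0, x, x', h => by
    simp only [pw, List.replicate_zero, List.nil_append, List.cons.injEq, true_and] at h
    exact ⟨rfl, h⟩
  | 0, m' + 1, x, x', h => by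
    rw [← pw_succ] at h
    simp [pw] at h
  | m + 1, 0, x, x', h => by
    rw [← pw_succ] at h
    simp [pw] at h
  | m + 1, m' + 1, x, x', h => by
    rw [← pw_succ, ← pw_succ, List.cons_inj_right] at h
    obtain ⟨h1, h2⟩ := pw_inj h
    exact ⟨by rw [h1], h2⟩

variable {O : Set (List ℝ)} {κ κ' : ℝ}

lemma pad_loop {N : ℕ} {x : List ℝ} (hO : ∀ m, κ :: pw m x ∈ O ↔ N ≤ m) :
    ∀ (d m : ℕ) (st : ℕ → List ℝ), m + d = N → st 4 = [] →
      run O (padProg κ κ') (5 * d + 2) ⟨1, Function.update st 0 (pw m x)⟩ =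
        ⟨6, Function.update st 0 (κ :: pw N x)⟩
  | 0, m, st, h, _ => by
    obtain rfl : m = N := by omega
    have e1 : step O (padProg κ κ') ⟨1, Function.update st 0 (pw m x)⟩ =
        ⟨2, Function.update st 0 (κ :: pw m x)⟩ := by simp [step, exec, padProg]
    have e2 : step O (padProg κ κ') ⟨2, Function.update st 0 (κ :: pw m x)⟩ =
        ⟨6, Function.update st 0 (κ :: pw m x)⟩ := by
      simp [step, exec, padProg, hO]
    show run O (padProg κ κ') (0 + 1 + 1) _ = _
    rw [run_succ, e1, run_succ, e2, run_zero]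
  | d + 1, m, st, h, h4 => by
    have e1 : step O (padProg κ κ') ⟨1, Function.update st 0 (pw m x)⟩ =
        ⟨2, Function.update st 0 (κ :: pw m x)⟩ := by simp [step, exec, padProg]
    have e2 : step O (padProg κ κ') ⟨2, Function.update st 0 (κ :: pw m x)⟩ =
        ⟨3, Function.update st 0 (κ :: pw m x)⟩ := by
      have : ¬ N ≤ m := by omega
      simp [step, exec, padProg, hO, this]
    have e3 : step O (padProg κ κ') ⟨3, Function.update st 0 (κ :: pw m x)⟩ =
        ⟨4, Function.update st 0 (pw m x)⟩ := by simp [step, exec, padProg]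
    have e4 : step O (padProg κ κ') ⟨4, Function.update st 0 (pw m x)⟩ =
        ⟨5, Function.update st 0 (pw (m + 1) x)⟩ := by
      simp [step, exec, padProg, pw_succ]
    have e5 : step O (padProg κ κ') ⟨5, Function.update st 0 (pw (m + 1) x)⟩ =
        ⟨1, Function.update st 0 (pw (m + 1) x)⟩ := by
      simp [step, exec, padProg, h4]
    have e6 : 5 * (d + 1) + 2 = (5 * d + 2) + 1 + 1 + 1 + 1 + 1 := by ring
    rw [e6, run_succ, e1, run_succ, e2, run_succ, e3, run_succ, e4, run_succ, e5]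
    exact pad_loop hO d (m + 1) st (by omega) h4

lemma padProg_run {N : ℕ} {x : List ℝ} (hO : ∀ m, κ :: pw m x ∈ O ↔ N ≤ m) (r ms : List ℝ)
    {t : ℕ} (ht : 5 * N + 8 ≤ t) :
    (padProg κ κ').length ≤ (run O (padProg κ κ') t (start x r ms)).pc ∧
      (κ' :: pw N x ∈ O → top ((run O (padProg κ κ') t (start x r ms)).st 3) = 1) ∧
      (κ' :: pw N x ∉ O → top ((run O (padProg κ κ') t (start x r ms)).st 3) = 0) := by
  set st : ℕ → List ℝ := (start x r ms).st with hst
  have hs : start x r ms = ⟨0, st⟩ := rfl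
  have h0 : st 0 = x := by simp [hst, start]
  have h4 : st 4 = [] := by simp [hst, start]
  have k0 : step O (padProg κ κ') ⟨0, st⟩ = ⟨1, Function.update st 0 (pw 0 x)⟩ := by
    simp [step, exec, padProg, h0, pw]
  have k1 : run O (padProg κ κ') (5 * N + 2) ⟨1, Function.update st 0 (pw 0 x)⟩ =
      ⟨6, Function.update st 0 (κ :: pw N x)⟩ := pad_loop hO N 0 st (by omega) h4
  have k2 : step O (padProg κ κ') ⟨6, Function.update st 0 (κ :: pw N x)⟩ =
      ⟨7, Function.update st 0 (pw N x)⟩ := by simp [step, exec, padProg]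
  have k3 : step O (padProg κ κ') ⟨7, Function.update st 0 (pw N x)⟩ =
      ⟨8, Function.update st 0 (κ' :: pw N x)⟩ := by simp [step, exec, padProg]
  set st1 : ℕ → List ℝ := Function.update st 0 (κ' :: pw N x) with hst1
  have m0 : st1 0 = κ' :: pw N x := by simp [hst1]
  have m4 : st1 4 = [] := by simp [hst1, h4]
  obtain ⟨u, rfl⟩ : ∃ u, t = ((5 * N + 2) + (u + 1 + 1 + 1 + 1 + 1)) + 1 :=
    ⟨t - (5 * N + 8), by omega⟩
  rw [hs, run_succ, k0, run_add, k1, run_succ, k2, run_succ, k3]
  by_cases hm : κ' :: pw N x ∈ O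
  · have k4 : step O (padProg κ κ') ⟨8, st1⟩ = ⟨11, st1⟩ := by
      simp [step, exec, padProg, m0, hm]
    have k5 : step O (padProg κ κ') ⟨11, st1⟩ = ⟨12, Function.update st1 3 (1 :: st1 3)⟩ := by
      simp [step, exec, padProg]
    have k6 : (padProg κ κ').length ≤ (⟨12, Function.update st1 3 (1 :: st1 3)⟩ : Cfg).pc := by
      simp [padProg]
    rw [run_succ, k4, run_succ, k5, run_halted k6]
    exact ⟨k6, by simp [top], fun h => absurd hm h⟩
  · have k4 : step O (padProg κ κ') ⟨8, st1⟩ = ⟨9, st1⟩ := by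
      simp [step, exec, padProg, m0, hm]
    have k5 : step O (padProg κ κ') ⟨9, st1⟩ = ⟨10, Function.update st1 3 (0 :: st1 3)⟩ := by
      simp [step, exec, padProg]
    have k5' : step O (padProg κ κ') ⟨10, Function.update st1 3 (0 :: st1 3)⟩ =
        ⟨12, Function.update st1 3 (0 :: st1 3)⟩ := by
      simp [step, exec, padProg, m4]
    have k6 : (padProg κ κ').length ≤ (⟨12, Function.update st1 3 (0 :: st1 3)⟩ : Cfg).pc := by
      simp [padProg]
    rw [run_succ, k4, run_succ, k5, run_succ, k5', run_halted k6]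
    exact ⟨k6, fun h => absurd h hm, by simp [top]⟩

lemma pad_time {n : ℕ} (hn : 1 ≤ n) (e : ℕ) : 5 * (n + 2) ^ e + 8 ≤ (n + 2) ^ (e + 3) := by
  have h1 : 1 ≤ (n + 2) ^ e := Nat.one_le_pow _ _ (by omega)
  have h2 : 27 ≤ (n + 2) ^ 3 := by
    calc 27 = 3 ^ 3 := by norm_num
      _ ≤ (n + 2) ^ 3 := Nat.pow_le_pow_left (by omega) 3
  rw [pow_add]
  nlinarith

/-- If the oracle tells when `(n + 2) ^ e` zeros have been put in front of `1 x`, and then tells
whether `x ∈ L`, then `L` is decided in deterministic polynomial time, and by a protocol without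
errors. -/
lemma pad_decides {e : ℕ} {L : Set (List ℝ)}
    (hO : ∀ x : List ℝ, x ≠ [] → ∀ m, κ :: pw m x ∈ O ↔ (x.length + 2) ^ e ≤ m)
    (hL : ∀ x : List ℝ, x ≠ [] → (κ' :: pw ((x.length + 2) ^ e) x ∈ O ↔ x ∈ L)) :
    InP O L ∧ HasProtocol O 1 0 L := by
  have hn : ∀ x : List ℝ, x ≠ [] → 1 ≤ x.length := fun x hx => List.length_pos_iff.mpr hx
  refine ⟨⟨padProg κ κ', e + 3, fun x hx => ?_⟩, ?_⟩
  · obtain ⟨h1, h2, h3⟩ := padProg_run (κ' := κ') (hO x hx) [] [] (pad_time (hn x hx) e)
    exact ⟨h1, fun h => h2 ((hL x hx).mpr h), fun h => h3 fun h' => h ((hL x hx).mp h')⟩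
  · refine ⟨⟨fun _ => padProg κ κ', fun n => (n + 2) ^ 0, fun n => (n + 2) ^ (e + 3),
      fun n => (n + 2) ^ 0⟩, ⟨padProg κ κ', 0, e + 3, 0, fun _ => ⟨rfl, rfl, rfl, rfl⟩⟩, ?_, ?_⟩
    · intro x hx r ms _
      exact (padProg_run (κ' := κ') (hO x hx) (bitList r) ms (pad_time (hn x hx) e)).1
    · intro x hx
      constructor
      · intro hxL
        refine ⟨fun _ => 0, le_of_eq (prob_one fun r => ?_).symm⟩
        exact (padProg_run (κ' := κ') (hO x hx) (bitList r) _ (pad_time (hn x hx) e)).2.1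
          ((hL x hx).mpr hxL)
      · intro hxL P
        refine le_of_eq (prob_zero fun r => ?_)
        intro hacc
        have h3 := fun ms => (padProg_run (κ' := κ') (hO x hx) (bitList r) ms
          (pad_time (hn x hx) e)).2.2 (fun h' => hxL ((hL x hx).mp h'))
        exact one_ne_zero (hacc.symm.trans (h3 _))

end Pool.Agent.OIP
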