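import Mathlib
import Pool.Agent.OIP.Local

set_option autoImplicit false

/-!
# The questions of a verifier are short
-/

namespace Pool.Agent.OIP

/-- All stacks hold at most `B` numbers. -/
def Small (B : ℕ) (c : Cfg) : Prop := ∀ s, (c.st s).length ≤ B

lemma small_update {B : ℕ} {c : Cfg} (h : Small B c) (j t : ℕ) (l : List ℝ)
    (hl : l.length ≤ B + 1) : Small (B + 1) ⟨j, Function.update c.st t l⟩ := by
  intro s
  by_cases hs : s = t
  · subst hs
    simpa using hl
  · simp only [ne_eq, hs, not_false_eq_true, Function.update_of_ne]
    exact (h s).trans (Nat.le_succ _)

lemma small_step {O : Set (List ℝ)} {p : List Instr} {B : ℕ} {c : Cfg} (h : Small B c) :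
    Small (B + 1) (step O p c) := by
  have h0 : Small (B + 1) c := fun s => (h s).trans (Nat.le_succ _)
  unfold step
  split
  · exact h0
  · rename_i i _
    cases i with
    | push s a =>
      refine small_update h _ _ _ ?_
      have := h s
      simp only [List.length_cons]
      omega
    | pop s =>
      refine small_update h _ _ _ ?_
      have := h s
      simp only [List.length_tail]
      omega
    | copy s t =>
      refine small_update h _ _ _ ?_
      have := h t
      simp only [List.length_cons]
      omega
    | add s =>
      refine small_update h _ _ _ ?_
      have := h s
      simp only [List.length_cons, List.length_tail]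
      omega
    | sub s =>
      refine small_update h _ _ _ ?_
      have := h s
      simp only [List.length_cons, List.length_tail]
      omega
    | mul s =>
      refine small_update h _ _ _ ?_
      have := h s
      simp only [List.length_cons, List.length_tail]
      omega
    | ifNonneg s j => exact h0
    | ifEmpty s j => exact h0
    | ifMem s j => exact h0

lemma small_queries {O : Set (List ℝ)} {p : List Instr} :
    ∀ (t B : ℕ) (c : Cfg), Small B c → ∀ q ∈ queries O p t c, q.length ≤ B + t
  | 0, _, _, _, q, hq => by simp [queries] at hq
  | t + 1, B, c, h, q, hq => by
    simp only [queries, List.mem_append] at hq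
    rcases hq with hq | hq
    · unfold query at hq
      split at hq
      · rename_i s j _
        simp only [List.mem_singleton] at hq
        subst hq
        have := h s
        omega
      · simp at hq
    · have := small_queries t (B + 1) _ (small_step h) q hq
      omega

lemma small_start {x r ms : List ℝ} {B : ℕ} (hx : x.length ≤ B) (hr : r.length ≤ B)
    (hms : ms.length ≤ B) : Small B (start x r ms) := by
  intro s
  unfold start
  dsimp only
  split_ifs
  · exact hx
  · exact hr
  · exact hms
  · simp

end Pool.Agent.OIP
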