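import Mathlib
import Pool.Agent.OIP.Size
import Pool.Agent.OIP.Pad
import Pool.Agent.OIP.Card

set_option autoImplicit false

/-!
# An oracle relative to which real interactive proofs collapse to deterministic polynomial time
-/

namespace Pool.Agent.OIP

open Cardinal

/-- The resources of the verifier are bounded by a polynomial with exponent `e`. -/
def Verifier.BoundedBy (V : Verifier) (e : ℕ) : Prop :=
  ∀ n : ℕ, V.msgs n ≤ (n + 2) ^ e ∧ V.time n ≤ (n + 2) ^ e ∧ V.bits n ≤ (n + 2) ^ e

/-- What is coded by one real number: a verifier, thresholds, an exponent, and a tag. -/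
abbrev Code : Type := (Verifier × (ℕ → ℝ) × ℕ) × ℕ

lemma exists_enc : ∃ f : Code → ℝ, Function.Injective f ∧ ∀ C, f C ≠ 1 := by
  have h0 : #ℕ ≤ 𝔠 := by
    rw [Cardinal.mk_nat]; exact Cardinal.aleph0_le_continuum
  have h : #Code ≤ #ℝ := by
    rw [Cardinal.mk_real]
    exact mk_prod_le (mk_prod_le mk_verifier_le (mk_prod_le mk_real_seq_le h0)) h0
  obtain ⟨g⟩ := h
  refine ⟨fun C => -Real.exp (g C), fun C C' h => ?_, fun C => ?_⟩
  · exact g.injective (Real.exp_injective (neg_injective h))
  · have := Real.exp_pos (g C)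
    linarith

/-- A real number different from `1` as a code. -/
noncomputable def enc : Code → ℝ := Classical.choose exists_enc

lemma enc_injective : Function.Injective enc := (Classical.choose_spec exists_enc).1

lemma enc_ne_one (C : Code) : enc C ≠ 1 := (Classical.choose_spec exists_enc).2 C

/-- Some prover makes the coded verifier accept `x` relative to `S` with probability at least the
threshold. -/
def Wins (S : Set (List ℝ)) (C : Verifier × (ℕ → ℝ) × ℕ) (x : List ℝ) : Prop :=
  ∃ P : List ℝ → ℝ, C.2.1 x.length ≤ prob S C.1 x P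

/-- The answer for a word with tag `t`. -/
def Answer (S : Set (List ℝ)) (C : Verifier × (ℕ → ℝ) × ℕ) (x : List ℝ) : ℕ → Prop
  | 0 => True
  | 1 => Wins S C x
  | _ => ¬ Wins S C x

/-- The elements put into the oracle at the stage of their length. -/
def Phi (A S : Set (List ℝ)) (z : List ℝ) : Prop :=
  (∃ w ∈ A, z = 1 :: w) ∨
  ∃ (C : Code) (x : List ℝ) (m : ℕ), z = enc C :: pw m x ∧ (x.length + 2) ^ C.1.2.2 ≤ m ∧
    Answer S C.1 x C.2

/-- The elements of length less than `ℓ`. -/
def lev (A : Set (List ℝ)) : ℕ → Set (List ℝ)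
  | 0 => ∅
  | ℓ + 1 => lev A ℓ ∪ {z | z.length = ℓ ∧ Phi A (lev A ℓ) z}

/-- The oracle. -/
def orc (A : Set (List ℝ)) : Set (List ℝ) := {z | Phi A (lev A z.length) z}

lemma lev_eq (A : Set (List ℝ)) : ∀ ℓ : ℕ, lev A ℓ = {z | z.length < ℓ ∧ z ∈ orc A}
  | 0 => by simp [lev]
  | ℓ + 1 => by
    rw [lev, lev_eq A ℓ]
    ext z
    constructor
    · rintro (⟨h1, h2⟩ | ⟨h1, h2⟩)
      · exact ⟨by omega, h2⟩
      · refine ⟨by omega, ?_⟩
        show Phi A (lev A z.length) z
        rw [h1, lev_eq A ℓ]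
        exact h2
    · rintro ⟨h1, h2⟩
      rcases Nat.lt_succ_iff_lt_or_eq.mp h1 with h3 | h3
      · exact Or.inl ⟨h3, h2⟩
      · refine Or.inr ⟨h3, ?_⟩
        have h4 : Phi A (lev A z.length) z := h2
        rw [h3, lev_eq A ℓ] at h4
        exact h4

lemma one_cons_mem_orc (A : Set (List ℝ)) (z : List ℝ) : 1 :: z ∈ orc A ↔ z ∈ A := by
  constructor
  · rintro (⟨w, hw, h⟩ | ⟨C, x, m, h, -⟩)
    · rw [List.cons_inj_right] at h
      rwa [h]
    · rw [List.cons.injEq] at h
      exact absurd h.1.symm (enc_ne_one C)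
  · intro h
    exact Or.inl ⟨z, h, rfl⟩

lemma mem_orc_iff {A : Set (List ℝ)} (C : Code) (x : List ℝ) (m : ℕ) :
    enc C :: pw m x ∈ orc A ↔ (x.length + 2) ^ C.1.2.2 ≤ m ∧
      Answer (lev A ((enc C :: pw m x).length)) C.1 x C.2 := by
  constructor
  · rintro (⟨w', -, h⟩ | ⟨C', x', m', h1, h2, h3⟩)
    · rw [List.cons.injEq] at h
      exact absurd h.1 (enc_ne_one C)
    rw [List.cons.injEq] at h1
    obtain ⟨h4, h5⟩ := h1
    have h6 := enc_injective h4
    subst h6
    obtain ⟨rfl, rfl⟩ := pw_inj h5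
    exact ⟨h2, h3⟩
  · rintro ⟨h1, h2⟩
    exact Or.inr ⟨C, x, m, rfl, h1, h2⟩

lemma prob_congr {O O' : Set (List ℝ)} {V : Verifier} {x : List ℝ} {P : List ℝ → ℝ}
    (h : ∀ r : Fin (V.bits x.length) → Bool,
      Accepts O V x (bitList r) P ↔ Accepts O' V x (bitList r) P) :
    prob O V x P = prob O' V x P := by
  classical
  unfold prob
  simp only [h]

lemma prob_lev (A : Set (List ℝ)) {V : Verifier} {e : ℕ} (hV : V.BoundedBy e) (x : List ℝ)
    (P : List ℝ → ℝ) {ℓ : ℕ} (hℓ : x.length + 2 * (x.length + 2) ^ e < ℓ) :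
    prob (orc A) V x P = prob (lev A ℓ) V x P := by
  refine prob_congr fun r => accepts_congr fun q hq => ?_
  have hlen : q.length < ℓ := by
    unfold allQ at hq
    rw [List.mem_flatMap] at hq
    obtain ⟨i, hi, hq⟩ := hq
    rw [List.mem_range] at hi
    obtain ⟨h1, h2, h3⟩ := hV x.length
    have h4 : Small (x.length + (x.length + 2) ^ e) (start x (bitList r)
        (hist (orc A) V x (bitList r) P i).2) := by
      apply small_start
      · omega
      · have : (bitList r).length = V.bits x.length := by simp [bitList]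
        omega
      · rw [(hist_length _ _ _ _ _ _).2]
        omega
    have h5 := small_queries _ _ _ h4 q hq
    omega
  rw [lev_eq]
  simp [hlen]

/-- Relative to `orc A` every language decided by a verifier with polynomial resources, even if its
program depends on the size of the input, is decided in deterministic polynomial time, and so is
its complement. -/
theorem orc_collapse (A : Set (List ℝ)) {V : Verifier} {e : ℕ} (hV : V.BoundedBy e)
    {c s : ℕ → ℝ} (hcs : ∀ n, s n < c n) {L : Set (List ℝ)} (hL : V.Decides (orc A) c s L) :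
    (InP (orc A) L ∧ HasProtocol (orc A) 1 0 L) ∧
      (InP (orc A) Lᶜ ∧ HasProtocol (orc A) 1 0 Lᶜ) := by
  have hO : ∀ x : List ℝ, x ≠ [] → ∀ m,
      enc ((V, c, e + 1), 0) :: pw m x ∈ orc A ↔ (x.length + 2) ^ (e + 1) ≤ m := by
    intro x _ m
    rw [mem_orc_iff]
    simp [Answer]
  have hW : ∀ (t : ℕ) (x : List ℝ), x ≠ [] →
      (Wins (lev A ((enc ((V, c, e + 1), t) :: pw ((x.length + 2) ^ (e + 1)) x).length))
        (V, c, e + 1) x ↔ x ∈ L) := by
    intro t x hx
    have hlen : x.length + 2 * (x.length + 2) ^ e <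
        (enc ((V, c, e + 1), t) :: pw ((x.length + 2) ^ (e + 1)) x).length := by
      rw [List.length_cons, pw_length, pow_succ]
      nlinarith [Nat.zero_le ((x.length + 2) ^ e)]
    unfold Wins
    simp only [← prob_lev A hV x _ hlen]
    constructor
    · rintro ⟨P, hP⟩
      by_contra h
      exact absurd (((hL x hx).2 h) P) (not_le.mpr ((hcs _).trans_le hP))
    · intro h
      exact (hL x hx).1 h
  constructor
  · refine pad_decides (κ := enc ((V, c, e + 1), 0)) (κ' := enc ((V, c, e + 1), 1)) (e := e + 1)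
      hO fun x hx => ?_
    rw [mem_orc_iff]
    simp only [Answer, le_refl, true_and]
    exact hW 1 x hx
  · refine pad_decides (κ := enc ((V, c, e + 1), 0)) (κ' := enc ((V, c, e + 1), 2)) (e := e + 1)
      hO fun x hx => ?_
    rw [mem_orc_iff]
    simp only [Answer, le_refl, true_and]
    rw [hW 2 x hx]
    rfl

lemma Verifier.Poly.bounded {V : Verifier} (hV : V.Poly) : ∃ e, V.BoundedBy e := by
  obtain ⟨p, a, b, d, h⟩ := hV
  refine ⟨a + b + d, fun n => ?_⟩
  obtain ⟨-, h1, h2, h3⟩ := h n
  rw [h1, h2, h3]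
  refine ⟨?_, ?_, ?_⟩ <;> exact Nat.pow_le_pow_right (by omega) (by omega)

end Pool.Agent.OIP
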