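import Mathlib
import Pool.Agent.OIP.Ask

set_option autoImplicit false

/-!
# One verifier is defeated by finitely many decisions about the oracle
-/

namespace Pool.Agent.OIP

open Cardinal Filter Topology

/-- The inputs `x` of size `n` for which some string `y` of `n + 2` bits gives an element `0, y, x`
of the oracle. -/
def BitLang (O : Set (List ℝ)) : Set (List ℝ) :=
  {x | ∃ y : Fin (x.length + 2) → Bool, 0 :: (bitList y ++ x) ∈ O}

/-- The point of the fibre over `x` with the bits `y`. -/
def pt (x : List ℝ) (y : Fin (x.length + 2) → Bool) : List ℝ := 0 :: (bitList y ++ x)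

/-- All these points. -/
def Base : Set (List ℝ) := {q | ∃ (x : List ℝ) (y : Fin (x.length + 2) → Bool), q = pt x y}

/-- The elements of `A` with a `1` put in front of them. -/
def shift (A : Set (List ℝ)) : Set (List ℝ) := {q | ∃ z ∈ A, q = 1 :: z}

lemma bitList_length {k : ℕ} (y : Fin k → Bool) : (bitList y).length = k := by
  simp [bitList]

lemma bitList_injective {k : ℕ} : Function.Injective (bitList (k := k)) := by
  intro y y' h
  unfold bitList at h
  have h1 := List.ofFn_injective h
  funext i
  have h2 := congrFun h1 i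
  by_cases hy : y i <;> by_cases hy' : y' i <;> simp_all

lemma pt_injective (x : List ℝ) : Function.Injective (pt x) := by
  intro y y' h
  unfold pt at h
  rw [List.cons_inj_right] at h
  exact bitList_injective (List.append_inj_left h (by simp [bitList_length]))

lemma zero_cons_notMem_shift (A : Set (List ℝ)) (w : List ℝ) : 0 :: w ∉ shift A := by
  rintro ⟨z, -, h⟩
  have := congrArg (fun l : List ℝ => l.headD 0) h
  simp at this

lemma one_cons_notMem_base (w : List ℝ) : 1 :: w ∉ Base := by
  rintro ⟨x, y, h⟩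
  have := congrArg (fun l : List ℝ => l.headD 0) h
  simp [pt] at this

lemma one_cons_mem_iff {O A : Set (List ℝ)} (hO : O ⊆ Base) (z : List ℝ) :
    1 :: z ∈ O ∪ shift A ↔ z ∈ A := by
  constructor
  · rintro (h | ⟨w, hw, h⟩)
    · exact absurd (hO h) (one_cons_notMem_base z)
    · rw [List.cons_inj_right] at h
      rwa [h]
  · intro h
    exact Or.inr ⟨z, h, rfl⟩

lemma mem_bitLang_iff {O A : Set (List ℝ)} {x : List ℝ} :
    x ∈ BitLang (O ∪ shift A) ↔ ∃ y, pt x y ∈ O := by
  constructor
  · rintro ⟨y, h | h⟩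
    · exact ⟨y, h⟩
    · exact absurd h (zero_cons_notMem_shift _ _)
  · rintro ⟨y, h⟩
    exact ⟨y, Or.inl h⟩

lemma pt_of_mem {O : Set (List ℝ)} (hO : O ⊆ Base) {x y : List ℝ} (hy : y.length = x.length + 2)
    (hyO : 0 :: (y ++ x) ∈ O) : ∃ y, pt x y ∈ O := by
  obtain ⟨x', y', e⟩ := hO hyO
  have e1 : y ++ x = bitList y' ++ x' := by
    unfold pt at e
    rwa [List.cons_inj_right] at e
  have e2 := congrArg List.length e1
  simp only [List.length_append, bitList_length, hy] at e2
  have e3 : x.length = x'.length := by omega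
  have e4 : y.length = (bitList y').length := by rw [bitList_length, hy, e3]
  have e5 : x = x' := List.append_inj_right e1 e4
  subst e5
  exact ⟨y', by rw [← e]; exact hyO⟩

lemma bitLang_protocol {O A : Set (List ℝ)} (hO : O ⊆ Base) :
    HasProtocol (O ∪ shift A) 1 0 (BitLang (O ∪ shift A)) := by
  refine ask_protocol (κ := 0) (a := 1) fun x _ => ?_
  rw [mem_bitLang_iff, pow_one]
  constructor
  · rintro ⟨y, hy⟩
    exact ⟨bitList y, bitList_length y, Or.inl hy⟩
  · rintro ⟨y, hy, h | h⟩
    · exact pt_of_mem hO hy h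
    · exact absurd h (zero_cons_notMem_shift _ _)

lemma exists_untouched (S : Set (List ℝ)) (hS : #S < 𝔠) (n : ℕ) (hn : 1 ≤ n) :
    ∃ x : List ℝ, x.length = n ∧ ∀ y, pt x y ∉ S := by
  by_contra hcon
  push Not at hcon
  let X : ℝ → List ℝ := fun ρ => ρ :: List.replicate (n - 1) 0
  have hX : ∀ ρ, (X ρ).length = n := fun ρ => by simp [X]; omega
  have h1 : ∀ ρ : ℝ, ∃ q : S, ∃ y, (q : List ℝ) = pt (X ρ) y := fun ρ => by
    obtain ⟨y, hy⟩ := hcon (X ρ) (hX ρ)
    exact ⟨⟨_, hy⟩, y, rfl⟩
  choose f hf using h1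
  have hinj : Function.Injective f := by
    intro ρ ρ' h
    obtain ⟨y, hy⟩ := hf ρ
    obtain ⟨y', hy'⟩ := hf ρ'
    rw [h, hy'] at hy
    unfold pt at hy
    rw [List.cons_inj_right] at hy
    have h2 : X ρ' = X ρ := List.append_inj_right hy (by simp [bitList_length, hX])
    have h3 := congrArg (fun l : List ℝ => l.headD 0) h2
    simpa [X] using h3.symm
  have h2 := Cardinal.mk_le_of_injective hinj
  rw [Cardinal.mk_real] at h2
  exact absurd hS (not_lt.mpr h2)

open Classical in
lemma prob_le_add {O O' : Set (List ℝ)} {V : Verifier} {x : List ℝ} {P : List ℝ → ℝ}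
    (bad : Finset (Fin (V.bits x.length) → Bool))
    (h : ∀ r, r ∉ bad → Accepts O V x (bitList r) P → Accepts O' V x (bitList r) P) :
    prob O V x P ≤ prob O' V x P + (bad.card : ℝ) / 2 ^ V.bits x.length := by
  unfold prob
  rw [← add_div]
  apply div_le_div_of_nonneg_right _ (by positivity)
  have h1 : (Finset.univ.filter fun r : Fin (V.bits x.length) → Bool =>
        Accepts O V x (bitList r) P) ⊆
      (Finset.univ.filter fun r : Fin (V.bits x.length) → Bool =>
        Accepts O' V x (bitList r) P) ∪ bad := by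
    intro r hr
    simp only [Finset.mem_filter, Finset.mem_univ, true_and, Finset.mem_union] at hr ⊢
    by_cases hb : r ∈ bad
    · exact Or.inr hb
    · exact Or.inl (h r hb hr)
  have h2 := (Finset.card_le_card h1).trans (Finset.card_union_le _ _)
  exact_mod_cast h2

/-- Averaging: some point of the fibre is asked with small probability. -/
lemma exists_rare {V : Verifier} {x : List ℝ}
    (qs : (Fin (V.bits x.length) → Bool) → List (List ℝ))
    (D : ℕ) (hqs : ∀ r, (qs r).length ≤ D) {ε : ℝ}
    (hD : (D : ℝ) < ε * 2 ^ (x.length + 2)) :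
    ∃ (y : Fin (x.length + 2) → Bool) (bad : Finset (Fin (V.bits x.length) → Bool)),
      (∀ r, r ∉ bad → pt x y ∉ qs r) ∧ (bad.card : ℝ) / 2 ^ V.bits x.length < ε := by
  classical
  by_contra hcon
  push Not at hcon
  have h1 : ∀ y : Fin (x.length + 2) → Bool,
      ε * 2 ^ V.bits x.length ≤ ((Finset.univ.filter fun r => pt x y ∈ qs r).card : ℝ) := by
    intro y
    have h := hcon y (Finset.univ.filter fun r => pt x y ∈ qs r) (fun r hr => by simpa using hr)
    rwa [le_div_iff₀ (by positivity)] at h
  have h2 : ∑ y : Fin (x.length + 2) → Bool, ((Finset.univ.filter fun r => pt x y ∈ qs r).card) =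
      ∑ r : Fin (V.bits x.length) → Bool,
        ((Finset.univ.filter fun y => pt x y ∈ qs r).card) := by
    simp only [Finset.card_filter]
    exact Finset.sum_comm
  have h3 : ∀ r : Fin (V.bits x.length) → Bool,
      (Finset.univ.filter fun y => pt x y ∈ qs r).card ≤ D := by
    intro r
    have h4 : ((Finset.univ.filter fun y => pt x y ∈ qs r).image (pt x)) ⊆ (qs r).toFinset := by
      intro q hq
      simp only [Finset.mem_image, Finset.mem_filter, Finset.mem_univ, true_and] at hq
      obtain ⟨y, hy, rfl⟩ := hq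
      simpa using hy
    have h5 := Finset.card_le_card h4
    rw [Finset.card_image_of_injective _ (pt_injective x)] at h5
    exact h5.trans ((List.toFinset_card_le _).trans (hqs r))
  have h6 : ∑ r : Fin (V.bits x.length) → Bool,
      ((Finset.univ.filter fun y => pt x y ∈ qs r).card) ≤ 2 ^ V.bits x.length * D := by
    calc _ ≤ ∑ _r : Fin (V.bits x.length) → Bool, D := Finset.sum_le_sum fun r _ => h3 r
      _ = 2 ^ V.bits x.length * D := by simp
  have h7 : (2 : ℝ) ^ (x.length + 2) * (ε * 2 ^ V.bits x.length) ≤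
      2 ^ V.bits x.length * D := by
    calc (2 : ℝ) ^ (x.length + 2) * (ε * 2 ^ V.bits x.length)
        = ∑ _y : Fin (x.length + 2) → Bool, (ε * 2 ^ V.bits x.length) := by simp
      _ ≤ ∑ y : Fin (x.length + 2) → Bool,
          ((Finset.univ.filter fun r => pt x y ∈ qs r).card : ℝ) :=
        Finset.sum_le_sum fun y _ => h1 y
      _ = ((∑ y : Fin (x.length + 2) → Bool,
          (Finset.univ.filter fun r => pt x y ∈ qs r).card : ℕ) : ℝ) := by push_cast; rfl
      _ ≤ ((2 ^ V.bits x.length * D : ℕ) : ℝ) := by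
        rw [h2]
        exact_mod_cast h6
      _ = 2 ^ V.bits x.length * D := by push_cast; rfl
  have hpos : (0 : ℝ) < 2 ^ V.bits x.length := by positivity
  nlinarith

/-- Finitely many decisions defeat the verifier `V` for the complement of the language, with
completeness `c` and soundness error `s`, if its resources are too small at some size. -/
lemma kill (A : Set (List ℝ)) (V : Verifier) (c s : ℕ → ℝ) {n : ℕ} (hn1 : 1 ≤ n)
    (hn : (((V.msgs n + 1) * V.time n : ℕ) : ℝ) < (c n - s n) * 2 ^ (n + 2))
    (Y N : Set (List ℝ)) (hYN : Disjoint Y N)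
    (hYB : Y ⊆ Base) (hcard : #(Y ∪ N : Set (List ℝ)) < 𝔠) :
    ∃ dY dN : Set (List ℝ), dY.Finite ∧ dN.Finite ∧ Disjoint (Y ∪ dY) (N ∪ dN) ∧
      Y ∪ dY ⊆ Base ∧ ∀ O : Set (List ℝ), Y ∪ dY ⊆ O → O ⊆ Base → Disjoint O (N ∪ dN) →
        ¬ V.Decides (O ∪ shift A) c s (BitLang (O ∪ shift A))ᶜ := by
  classical
  obtain ⟨x, hxn, hx⟩ := exists_untouched (Y ∪ N) hcard n hn1
  have hx0 : x ≠ [] := by
    rintro rfl
    simp at hxn
    omega
  subst hxn
  by_cases h : ∃ (B : Set (List ℝ)) (P : List ℝ → ℝ), Y ⊆ B ∧ B ⊆ Base ∧ Disjoint B N ∧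
      (∀ y, pt x y ∉ B) ∧ c x.length ≤ prob (B ∪ shift A) V x P
  · obtain ⟨B, P, hYB', hBB, hBN, hBx, hc⟩ := h
    set qs : (Fin (V.bits x.length) → Bool) → List (List ℝ) := fun r =>
      allQ (B ∪ shift A) V x (bitList r) P (V.msgs x.length + 1) with hqs
    obtain ⟨y, bad, hbad, hbad'⟩ := exists_rare (V := V) (x := x) qs
      ((V.msgs x.length + 1) * V.time x.length)
      (fun r => allQ_length_le _ _ _ _ _ _) (ε := c x.length - s x.length) hn
    have hpY : pt x y ∉ Y := fun h' => hx y (Or.inl h')
    have hpN : pt x y ∉ N := fun h' => hx y (Or.inr h')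
    set F : Set (List ℝ) := ⋃ r, {q | q ∈ qs r} with hF
    have hFfin : F.Finite := Set.finite_iUnion fun r => (qs r).finite_toSet
    refine ⟨(F ∩ B) ∪ {pt x y}, (F \ B) \ {pt x y},
      (hFfin.subset Set.inter_subset_left).union (Set.finite_singleton _),
      hFfin.subset (Set.sdiff_subset.trans Set.sdiff_subset), ?_, ?_, ?_⟩
    · rw [Set.disjoint_left]
      rintro q (hq | hq | hq) (hq' | hq')
      · exact Set.disjoint_left.mp hYN hq hq'
      · exact hq'.1.2 (hYB' hq)
      · exact Set.disjoint_left.mp hBN hq.2 hq'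
      · exact hq'.1.2 hq.2
      · rw [Set.mem_singleton_iff] at hq
        subst hq
        exact hpN hq'
      · exact hq'.2 hq
    · rintro q (hq | hq | hq)
      · exact hYB hq
      · exact hBB hq.2
      · rw [Set.mem_singleton_iff] at hq
        exact ⟨x, y, hq⟩
    · intro O hO1 hO2 hO3 hall
      have hmem : pt x y ∈ O := hO1 (Or.inr (Or.inr rfl))
      have h1 := (hall x hx0).2 (fun h' => h' (mem_bitLang_iff.mpr ⟨y, hmem⟩)) P
      have h2 : prob (B ∪ shift A) V x P ≤
          prob (O ∪ shift A) V x P + (bad.card : ℝ) / 2 ^ V.bits x.length := by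
        refine prob_le_add bad fun r hr hacc => ?_
        rw [accepts_congr (O' := O ∪ shift A)] at hacc
        · exact hacc
        · intro q hq
          have hqF : q ∈ F := Set.mem_iUnion.mpr ⟨r, hq⟩
          have hqp : q ≠ pt x y := by
            rintro rfl
            exact hbad r hr hq
          constructor
          · rintro (hqB | hqA)
            · exact Or.inl (hO1 (Or.inr (Or.inl ⟨hqF, hqB⟩)))
            · exact Or.inr hqA
          · rintro (hqO | hqA)
            · left
              by_contra hqB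
              exact Set.disjoint_left.mp hO3 hqO (Or.inr ⟨⟨hqF, hqB⟩, hqp⟩)
            · exact Or.inr hqA
      linarith
  · refine ⟨∅, Set.range (pt x), Set.finite_empty, Set.finite_range _, ?_, ?_, ?_⟩
    · rw [Set.union_empty, Set.disjoint_left]
      rintro q hq (hq' | ⟨y, rfl⟩)
      · exact Set.disjoint_left.mp hYN hq hq'
      · exact hx y (Or.inl hq)
    · rw [Set.union_empty]
      exact hYB
    · intro O hO1 hO2 hO3 hall
      rw [Set.union_empty] at hO1
      have h1 : ∀ y, pt x y ∉ O := fun y hy =>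
        Set.disjoint_left.mp hO3 hy (Or.inr ⟨y, rfl⟩)
      obtain ⟨P, hP⟩ := (hall x hx0).1 fun h' => by
        obtain ⟨y, hy⟩ := mem_bitLang_iff.mp h'
        exact h1 y hy
      exact h ⟨O, P, hO1, hO2, hO3.mono_right Set.subset_union_left, h1, hP⟩

end Pool.Agent.OIP
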