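import Mathlib

set_option autoImplicit false

/-!
# Bookkeeping of length continuum
-/

namespace Pool.Agent.OIP

open Cardinal

/-- If each of at most continuum many requirements can be met by finitely many decisions after
fewer than continuum many decisions, then all can be met at once. -/
theorem bookkeeping {R α : Type} (hR : #R ≤ 𝔠) (B : Set α) (K : R → Set α → Prop)
    (hK : ∀ (a : R) (Y N : Set α), Disjoint Y N → Y ⊆ B → #(Y ∪ N : Set α) < 𝔠 →
      ∃ dY dN : Set α, dY.Finite ∧ dN.Finite ∧ Disjoint (Y ∪ dY) (N ∪ dN) ∧ Y ∪ dY ⊆ B ∧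
        ∀ O : Set α, Y ∪ dY ⊆ O → O ⊆ B → Disjoint O (N ∪ dN) → K a O) :
    ∃ O : Set α, O ⊆ B ∧ ∀ a, K a O := by
  classical
  obtain ⟨r, wo, hr⟩ := Cardinal.exists_ord_eq R
  have wf : WellFounded r := wo.wf
  have h1 : ∀ (a : R) (Y N : Set α), ∃ d : Set α × Set α, d.1.Finite ∧ d.2.Finite ∧
      (Disjoint Y N → Y ⊆ B → #(Y ∪ N : Set α) < 𝔠 →
        Disjoint (Y ∪ d.1) (N ∪ d.2) ∧ Y ∪ d.1 ⊆ B ∧
        ∀ O : Set α, Y ∪ d.1 ⊆ O → O ⊆ B → Disjoint O (N ∪ d.2) → K a O) := by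
    intro a Y N
    by_cases h : Disjoint Y N ∧ Y ⊆ B ∧ #(Y ∪ N : Set α) < 𝔠
    · obtain ⟨dY, dN, h2, h3, h4, h5, h6⟩ := hK a Y N h.1 h.2.1 h.2.2
      exact ⟨(dY, dN), h2, h3, fun _ _ _ => ⟨h4, h5, h6⟩⟩
    · exact ⟨(∅, ∅), Set.finite_empty, Set.finite_empty, fun a b c => absurd ⟨a, b, c⟩ h⟩
  choose G hG1 hG2 hG3 using h1
  let inc : R → Set α × Set α := wf.fix fun a prev =>
    G a (⋃ b, ⋃ h : r b a, (prev b h).1) (⋃ b, ⋃ h : r b a, (prev b h).2)
  let Yl : R → Set α := fun a => ⋃ b, ⋃ _ : r b a, (inc b).1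
  let Nl : R → Set α := fun a => ⋃ b, ⋃ _ : r b a, (inc b).2
  have inc_eq : ∀ a, inc a = G a (Yl a) (Nl a) := fun a => wf.fix_eq _ a
  have memY : ∀ {a b q}, r b a → q ∈ (inc b).1 → q ∈ Yl a := fun {a b q} h hq =>
    Set.mem_iUnion.mpr ⟨b, Set.mem_iUnion.mpr ⟨h, hq⟩⟩
  have memN : ∀ {a b q}, r b a → q ∈ (inc b).2 → q ∈ Nl a := fun {a b q} h hq =>
    Set.mem_iUnion.mpr ⟨b, Set.mem_iUnion.mpr ⟨h, hq⟩⟩
  have fin1 : ∀ a, (inc a).1.Finite := fun a => by rw [inc_eq]; exact hG1 _ _ _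
  have fin2 : ∀ a, (inc a).2.Finite := fun a => by rw [inc_eq]; exact hG2 _ _ _
  have card_seg : ∀ a : R, #{b // r b a} < 𝔠 := by
    intro a
    have := Cardinal.card_typein_lt (r := r) a hr
    rw [Ordinal.card_typein] at this
    exact this.trans_le hR
  have key : ∀ b, Disjoint (Yl b) (Nl b) ∧ Yl b ⊆ B ∧ #(Yl b ∪ Nl b : Set α) < 𝔠 →
      Disjoint (Yl b ∪ (inc b).1) (Nl b ∪ (inc b).2) ∧ Yl b ∪ (inc b).1 ⊆ B ∧
        ∀ O : Set α, Yl b ∪ (inc b).1 ⊆ O → O ⊆ B → Disjoint O (Nl b ∪ (inc b).2) → K b O := by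
    intro b hb
    have := hG3 b (Yl b) (Nl b) hb.1 hb.2.1 hb.2.2
    rw [← inc_eq] at this
    exact this
  have pair : ∀ b b', (Disjoint (Yl b) (Nl b) ∧ Yl b ⊆ B ∧ #(Yl b ∪ Nl b : Set α) < 𝔠) →
      (Disjoint (Yl b') (Nl b') ∧ Yl b' ⊆ B ∧ #(Yl b' ∪ Nl b' : Set α) < 𝔠) →
      Disjoint (inc b).1 (inc b').2 := by
    intro b b' hb hb'
    rw [Set.disjoint_left]
    intro q hq hq'
    rcases trichotomous_of r b b' with h | h | h
    · exact Set.disjoint_left.mp (key b' hb').1 (Or.inl (memY h hq)) (Or.inr hq')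
    · subst h
      exact Set.disjoint_left.mp (key b hb).1 (Or.inr hq) (Or.inr hq')
    · exact Set.disjoint_left.mp (key b hb).1 (Or.inr hq) (Or.inl (memN h hq'))
  have good : ∀ a, Disjoint (Yl a) (Nl a) ∧ Yl a ⊆ B ∧ #(Yl a ∪ Nl a : Set α) < 𝔠 := by
    intro a
    induction a using wf.induction with
    | _ a ih =>
      refine ⟨?_, ?_, ?_⟩
      · rw [Set.disjoint_left]
        intro q hq hq'
        obtain ⟨b, hb⟩ := Set.mem_iUnion.mp hq
        obtain ⟨hba, hb⟩ := Set.mem_iUnion.mp hb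
        obtain ⟨b', hb'⟩ := Set.mem_iUnion.mp hq'
        obtain ⟨hba', hb'⟩ := Set.mem_iUnion.mp hb'
        exact Set.disjoint_left.mp (pair b b' (ih b hba) (ih b' hba')) hb hb'
      · intro q hq
        obtain ⟨b, hb⟩ := Set.mem_iUnion.mp hq
        obtain ⟨hba, hb⟩ := Set.mem_iUnion.mp hb
        exact (key b (ih b hba)).2.1 (Or.inr hb)
      · have hsub : Yl a ∪ Nl a ⊆ ⋃ b : {b // r b a}, ((inc b).1 ∪ (inc b).2) := by
          rintro q (hq | hq)
          · obtain ⟨b, hb⟩ := Set.mem_iUnion.mp hq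
            obtain ⟨hba, hb⟩ := Set.mem_iUnion.mp hb
            exact Set.mem_iUnion.mpr ⟨⟨b, hba⟩, Or.inl hb⟩
          · obtain ⟨b, hb⟩ := Set.mem_iUnion.mp hq
            obtain ⟨hba, hb⟩ := Set.mem_iUnion.mp hb
            exact Set.mem_iUnion.mpr ⟨⟨b, hba⟩, Or.inr hb⟩
        calc #(Yl a ∪ Nl a : Set α)
            ≤ #(⋃ b : {b // r b a}, ((inc b).1 ∪ (inc b).2) : Set α) :=
              Cardinal.mk_le_mk_of_subset hsub
          _ ≤ Cardinal.sum fun b : {b // r b a} => #((inc b).1 ∪ (inc b).2 : Set α) :=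
              Cardinal.mk_iUnion_le_sum_mk
          _ ≤ Cardinal.sum fun _ : {b // r b a} => ℵ₀ := by
              apply Cardinal.sum_le_sum
              intro b
              exact (((fin1 b).union (fin2 b)).countable).le_aleph0
          _ = #{b // r b a} * ℵ₀ := Cardinal.sum_const' _ _
          _ < 𝔠 := Cardinal.mul_lt_of_lt Cardinal.aleph0_le_continuum (card_seg a)
              Cardinal.aleph0_lt_continuum
  refine ⟨⋃ a, (inc a).1, ?_, fun a => ?_⟩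
  · intro q hq
    obtain ⟨a, ha⟩ := Set.mem_iUnion.mp hq
    exact (key a (good a)).2.1 (Or.inr ha)
  · refine (key a (good a)).2.2 _ ?_ ?_ ?_
    · rintro q (hq | hq)
      · obtain ⟨b, hb⟩ := Set.mem_iUnion.mp hq
        obtain ⟨hba, hb⟩ := Set.mem_iUnion.mp hb
        exact Set.mem_iUnion.mpr ⟨b, hb⟩
      · exact Set.mem_iUnion.mpr ⟨a, hq⟩
    · intro q hq
      obtain ⟨a, ha⟩ := Set.mem_iUnion.mp hq
      exact (key a (good a)).2.1 (Or.inr ha)
    · rw [Set.disjoint_left]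
      rintro q hq (hq' | hq')
      · obtain ⟨b, hb⟩ := Set.mem_iUnion.mp hq
        obtain ⟨b', hb'⟩ := Set.mem_iUnion.mp hq'
        obtain ⟨_, hb'⟩ := Set.mem_iUnion.mp hb'
        exact Set.disjoint_left.mp (pair b b' (good b) (good b')) hb hb'
      · obtain ⟨b, hb⟩ := Set.mem_iUnion.mp hq
        exact Set.disjoint_left.mp (pair b a (good b) (good a)) hb hq'

end Pool.Agent.OIP
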