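import Mathlib
import Pool.Agent.OIP.Kill
import Pool.Agent.OIP.Rec
import Pool.Agent.OIP.Card

set_option autoImplicit false

/-!
# An oracle relative to which the complement of a language has no protocol
-/

namespace Pool.Agent.OIP

open Cardinal Filter Topology

theorem lower_bound (A : Set (List ℝ)) : ∃ O : Set (List ℝ), (∀ z, 1 :: z ∈ O ↔ z ∈ A) ∧
    HasProtocol O 1 0 (BitLang O) ∧
    ∀ (V : Verifier) (c s : ℕ → ℝ), V.Decides O c s (BitLang O)ᶜ →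
      ∀ n : ℕ, 1 ≤ n → (c n - s n) * 2 ^ (n + 2) ≤ (((V.msgs n + 1) * V.time n : ℕ) : ℝ) := by
  obtain ⟨O, hO, hK⟩ := bookkeeping (R := Verifier × (ℕ → ℝ) × (ℕ → ℝ))
    (mk_prod_le mk_verifier_le (mk_prod_le mk_real_seq_le mk_real_seq_le)) Base
    (fun a O => a.1.Decides (O ∪ shift A) a.2.1 a.2.2 (BitLang (O ∪ shift A))ᶜ →
      ∀ n : ℕ, 1 ≤ n →
      (a.2.1 n - a.2.2 n) * 2 ^ (n + 2) ≤ (((a.1.msgs n + 1) * a.1.time n : ℕ) : ℝ)) (by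
    rintro ⟨V, c, s⟩ Y N hYN hYB hcard
    by_cases hn : ∀ n : ℕ, 1 ≤ n →
      (c n - s n) * 2 ^ (n + 2) ≤ (((V.msgs n + 1) * V.time n : ℕ) : ℝ)
    · refine ⟨∅, ∅, Set.finite_empty, Set.finite_empty, ?_, ?_, fun O _ _ _ _ => hn⟩
      · simpa using hYN
      · simpa using hYB
    · push Not at hn
      obtain ⟨n, hn1, hn⟩ := hn
      obtain ⟨dY, dN, h1, h2, h3, h4, h5⟩ := kill A V c s hn1 hn Y N hYN hYB hcard
      exact ⟨dY, dN, h1, h2, h3, h4, fun O hO1 hO2 hO3 h => absurd h (h5 O hO1 hO2 hO3)⟩)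
  exact ⟨O ∪ shift A, one_cons_mem_iff hO, bitLang_protocol hO, fun V c s => hK (V, c, s)⟩

lemma poly_small (a b : ℕ) {ε : ℝ} (hε : 0 < ε) :
    ∃ n : ℕ, 1 ≤ n ∧ ((((n + 2) ^ a + 1) * (n + 2) ^ b : ℕ) : ℝ) < ε * 2 ^ (n + 2) := by
  have h1 := tendsto_pow_const_div_const_pow_of_one_lt (a + 1 + b) (r := (2 : ℝ)) (by norm_num)
  have h2 := h1.comp (tendsto_add_atTop_nat 2)
  have h3 : ∀ᶠ n : ℕ in atTop, ((n + 2 : ℕ) : ℝ) ^ (a + 1 + b) / 2 ^ (n + 2) < ε := by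
    exact (tendsto_order.1 h2).2 ε hε
  obtain ⟨n, hn, hn1⟩ := (h3.and (eventually_ge_atTop 1)).exists
  refine ⟨n, hn1, ?_⟩
  rw [div_lt_iff₀ (by positivity)] at hn
  refine lt_of_le_of_lt ?_ hn
  have h4 : ((n + 2) ^ a + 1) * (n + 2) ^ b ≤ (n + 2) ^ (a + 1 + b) := by
    rw [pow_add]
    apply Nat.mul_le_mul_right
    have : 1 ≤ (n + 2) ^ a := Nat.one_le_pow _ _ (by omega)
    rw [pow_succ]
    nlinarith
  exact_mod_cast h4

theorem not_closed {O : Set (List ℝ)} {L : Set (List ℝ)}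
    (h : ∀ (V : Verifier) (c s : ℕ → ℝ), V.Decides O c s L →
      ∀ n : ℕ, 1 ≤ n → (c n - s n) * 2 ^ (n + 2) ≤ (((V.msgs n + 1) * V.time n : ℕ) : ℝ))
    {c s : ℝ} (hcs : s < c) : ¬ HasProtocol O c s L := by
  rintro ⟨V, ⟨p, a, b, d, hV⟩, -, hD⟩
  obtain ⟨n, hn1, hn⟩ := poly_small a b (sub_pos.mpr hcs)
  have h1 := h V _ _ hD n hn1
  rw [(hV n).2.1, (hV n).2.2.1] at h1
  linarith

end Pool.Agent.OIP
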