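import Mathlib
import Pool.Agent.OIP.Sep

set_option autoImplicit false

/-!
# Relative to an oracle, real interactive proofs are not closed under complement (MP_80a57c_lc)

The model (real machines, verifiers, provers, protocols relative to an oracle) is defined in
`Pool.Agent.OIP.Model`, the language `BitLang O` in `Pool.Agent.OIP.Kill`.
-/

namespace Pool.Agent.OIP.SeparationTheorem

open Pool.Agent.OIP

/-- For every `A` there is an oracle `O`, containing a copy of `A`, such that `BitLang O` has a
polynomial time protocol without errors relative to `O`, while its complement has no polynomial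
time protocol relative to `O` for any completeness `c` and soundness error `s < c`; moreover every
verifier for the complement, whatever its resources, and even if its program and its errors depend
on the input size, needs `(number of rounds) * (time per round) ≥ (c n - s n) * 2 ^ (n + 2)` on
inputs of every size `n`. -/
theorem result (A : Set (List ℝ)) : ∃ O : Set (List ℝ),
    (∀ z : List ℝ, 1 :: z ∈ O ↔ z ∈ A) ∧
    HasProtocol O 1 0 (BitLang O) ∧
    (∀ c s : ℝ, s < c → ¬ HasProtocol O c s (BitLang O)ᶜ) ∧
    ∀ (V : Verifier) (c s : ℕ → ℝ), V.Decides O c s (BitLang O)ᶜ →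
      ∀ n : ℕ, 1 ≤ n → (c n - s n) * 2 ^ (n + 2) ≤ (((V.msgs n + 1) * V.time n : ℕ) : ℝ) := by
  obtain ⟨O, h1, h2, h3⟩ := lower_bound A
  exact ⟨O, h1, h2, fun c s hcs => not_closed h3 hcs, h3⟩

end Pool.Agent.OIP.SeparationTheorem
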